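import Pool.Agent.Y184.SP.Base

/-!
Project SP (helper184), part Near: the lower bound near the curve `y = 0`.
-/

set_option autoImplicit false

open Set Topology Filter
open scoped ContDiff InnerProductSpace

namespace Pool.Agent.Y240.SP

open Pool.Agent.Y184.SP

/-! ### Laplacians -/

lemma lap_line {L : ℂ → ℝ} (hL : ContDiffAt ℝ 2 L 0) (e : ℂ) {ψ : ℝ → ℝ} {c : ℝ}
    (h1 : ∀ᶠ t in 𝓝 (0 : ℝ), HasDerivAt (fun s : ℝ => L (s • e)) (ψ t) t)
    (h2 : HasDerivAt ψ c 0) : fderiv ℝ (fderiv ℝ L) 0 e e = c := by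
  have hdiff : ∀ᶠ ζ in 𝓝 (0 : ℂ), DifferentiableAt ℝ L ζ := by
    have h := hL.eventually (by simp)
    filter_upwards [h] with ζ hζ
    exact hζ.differentiableAt (by norm_num)
  have hf : DifferentiableAt ℝ (fderiv ℝ L) 0 := by
    have : ContDiffAt ℝ 1 (fderiv ℝ L) 0 := hL.fderiv_right (by norm_num)
    exact this.differentiableAt (by norm_num)
  have hline : ∀ t : ℝ, HasDerivAt (fun s : ℝ => s • e) e t := by
    intro t
    simpa using (hasDerivAt_id t).smul_const e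
  have ht0 : Tendsto (fun s : ℝ => s • e) (𝓝 0) (𝓝 (0 : ℂ)) := by
    have := (hline 0).continuousAt.tendsto
    simpa using this
  have h3 : ψ =ᶠ[𝓝 0] fun t => fderiv ℝ L (t • e) e := by
    filter_upwards [h1, ht0.eventually hdiff] with t ht htd
    have h4 : HasDerivAt (fun s : ℝ => L (s • e)) (fderiv ℝ L (t • e) e) t :=
      htd.hasFDerivAt.comp_hasDerivAt t (hline t)
    exact ht.unique h4
  have h5 : HasDerivAt (fun t : ℝ => fderiv ℝ L (t • e) e) (fderiv ℝ (fderiv ℝ L) 0 e e) 0 := by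
    have h6 : HasFDerivAt (fderiv ℝ L) (fderiv ℝ (fderiv ℝ L) 0) ((0 : ℝ) • e) := by
      rw [zero_smul]; exact hf.hasFDerivAt
    have h7 : HasDerivAt (fun t : ℝ => fderiv ℝ L (t • e)) (fderiv ℝ (fderiv ℝ L) 0 e) 0 :=
      h6.comp_hasDerivAt (0 : ℝ) (hline 0)
    have h8 := (ContinuousLinearMap.apply ℝ ℝ e).hasFDerivAt.comp_hasDerivAt (0 : ℝ) h7
    exact h8
  exact ((h2.congr_of_eventuallyEq h3.symm).unique h5).symm

lemma lap_eq (L : ℂ → ℝ) : Laplacian.laplacian L 0 =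
    fderiv ℝ (fderiv ℝ L) 0 1 1 + fderiv ℝ (fderiv ℝ L) 0 Complex.I Complex.I := by
  rw [InnerProductSpace.laplacian_eq_iteratedFDeriv_complexPlane]
  simp only [iteratedFDeriv_two_apply, Matrix.cons_val_zero, Matrix.cons_val_one]

lemma fd_mul {f g : ℂ → ℝ} (hf : ContDiffAt ℝ 2 f 0) (hg : ContDiffAt ℝ 2 g 0) (h : ℂ) :
    fderiv ℝ (fderiv ℝ (fun ζ => f ζ * g ζ)) 0 h h =
      f 0 * fderiv ℝ (fderiv ℝ g) 0 h h + 2 * (fderiv ℝ f 0 h * fderiv ℝ g 0 h) +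
        g 0 * fderiv ℝ (fderiv ℝ f) 0 h h := by
  have hdf : ∀ᶠ ζ in 𝓝 (0 : ℂ), DifferentiableAt ℝ f ζ := by
    filter_upwards [hf.eventually (by simp)] with ζ hζ
    exact hζ.differentiableAt (by norm_num)
  have hdg : ∀ᶠ ζ in 𝓝 (0 : ℂ), DifferentiableAt ℝ g ζ := by
    filter_upwards [hg.eventually (by simp)] with ζ hζ
    exact hζ.differentiableAt (by norm_num)
  have hf2 : DifferentiableAt ℝ (fderiv ℝ f) 0 :=
    (hf.fderiv_right (m := 1) (by norm_num)).differentiableAt (by norm_num)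
  have hg2 : DifferentiableAt ℝ (fderiv ℝ g) 0 :=
    (hg.fderiv_right (m := 1) (by norm_num)).differentiableAt (by norm_num)
  have h1 : fderiv ℝ (fun ζ => f ζ * g ζ) =ᶠ[𝓝 0] fun ζ => f ζ • fderiv ℝ g ζ + g ζ • fderiv ℝ f ζ := by
    filter_upwards [hdf, hdg] with ζ h1 h2
    exact fderiv_fun_mul h1 h2
  rw [h1.fderiv_eq]
  have h2 := (hdf.self_of_nhds.hasFDerivAt.smul hg2.hasFDerivAt).add
    (hdg.self_of_nhds.hasFDerivAt.smul hf2.hasFDerivAt)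
  have h3 : fderiv ℝ (fun ζ => f ζ • fderiv ℝ g ζ + g ζ • fderiv ℝ f ζ) 0 = _ := h2.fderiv
  rw [h3]
  simp only [add_apply, smul_apply, ContinuousLinearMap.smulRight_apply,
    smul_eq_mul]
  ring

lemma fd_add {f g : ℂ → ℝ} (hf : ContDiffAt ℝ 2 f 0) (hg : ContDiffAt ℝ 2 g 0) (h : ℂ) :
    fderiv ℝ (fderiv ℝ (fun ζ => f ζ + g ζ)) 0 h h =
      fderiv ℝ (fderiv ℝ f) 0 h h + fderiv ℝ (fderiv ℝ g) 0 h h := by
  have hdf : ∀ᶠ ζ in 𝓝 (0 : ℂ), DifferentiableAt ℝ f ζ := by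
    filter_upwards [hf.eventually (by simp)] with ζ hζ
    exact hζ.differentiableAt (by norm_num)
  have hdg : ∀ᶠ ζ in 𝓝 (0 : ℂ), DifferentiableAt ℝ g ζ := by
    filter_upwards [hg.eventually (by simp)] with ζ hζ
    exact hζ.differentiableAt (by norm_num)
  have hf2 : DifferentiableAt ℝ (fderiv ℝ f) 0 :=
    (hf.fderiv_right (m := 1) (by norm_num)).differentiableAt (by norm_num)
  have hg2 : DifferentiableAt ℝ (fderiv ℝ g) 0 :=
    (hg.fderiv_right (m := 1) (by norm_num)).differentiableAt (by norm_num)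
  have h1 : fderiv ℝ (fun ζ => f ζ + g ζ) =ᶠ[𝓝 0] fun ζ => fderiv ℝ f ζ + fderiv ℝ g ζ := by
    filter_upwards [hdf, hdg] with ζ h1 h2
    exact fderiv_fun_add h1 h2
  rw [h1.fderiv_eq, fderiv_fun_add hf2 hg2]
  rfl

/-- `log (‖g₀‖² + ‖g₁‖²)` for holomorphic functions -/
lemma logsum {g : Fin 2 → ℂ → ℂ} (hg : ∀ k, AnalyticAt ℂ (g k) 0) (hs : 0 < ∑ k, ‖g k 0‖ ^ 2) :
    ContDiffAt ℝ 2 (fun ζ : ℂ => Real.log (∑ k, ‖g k ζ‖ ^ 2)) 0 ∧
    0 ≤ Laplacian.laplacian (fun ζ : ℂ => Real.log (∑ k, ‖g k ζ‖ ^ 2)) 0 ∧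
    ∀ e : ℂ, fderiv ℝ (fun ζ : ℂ => Real.log (∑ k, ‖g k ζ‖ ^ 2)) 0 e =
      (∑ k, 2 * ⟪g k 0, e * deriv (g k) 0⟫_ℝ) / (∑ k, ‖g k 0‖ ^ 2) := by
  set L : ℂ → ℝ := fun ζ : ℂ => Real.log (∑ k, ‖g k ζ‖ ^ 2) with hLdef
  have hc : ContinuousAt (fun ζ : ℂ => ∑ k, ‖g k ζ‖ ^ 2) 0 := by
    refine tendsto_finsetSum _ fun k _ => ?_
    exact ((hg k).continuousAt.norm.pow 2).tendsto
  have hpos : ∀ᶠ ζ in 𝓝 (0 : ℂ), 0 < ∑ k, ‖g k ζ‖ ^ 2 := hc.eventually (lt_mem_nhds hs)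
  have hL : ContDiffAt ℝ 2 L 0 := by
    refine ContDiffAt.log ?_ hs.ne'
    refine ContDiffAt.sum fun k _ => ?_
    have h1 : ContDiffAt ℝ 2 (g k) 0 := ((hg k).contDiffAt (n := 2)).restrict_scalars ℝ
    exact h1.norm_sq ℝ
  have hline : ∀ (e : ℂ) (t : ℝ), HasDerivAt (fun s : ℝ => s • e) e t := by
    intro e t
    simpa using (hasDerivAt_id t).smul_const e
  have ht0 : ∀ e : ℂ, Tendsto (fun s : ℝ => s • e) (𝓝 0) (𝓝 (0 : ℂ)) := by
    intro e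
    have : Continuous (fun s : ℝ => s • e) := by fun_prop
    simpa using this.tendsto 0
  have hev : ∀ e : ℂ, ∀ᶠ t in 𝓝 (0 : ℝ), (∀ k, AnalyticAt ℂ (g k) (t • e)) ∧ 0 < ∑ k, ‖g k (t • e)‖ ^ 2 := by
    intro e
    exact (ht0 e).eventually ((eventually_all.2 fun k => (hg k).eventually_analyticAt).and hpos)
  have hN : ∀ e : ℂ, ∀ᶠ t in 𝓝 (0 : ℝ), HasDerivAt (fun s : ℝ => ∑ k, ‖g k (s • e)‖ ^ 2)
      (∑ k, 2 * ⟪g k (t • e), e * deriv (g k) (t • e)⟫_ℝ) t := by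
    intro e
    filter_upwards [hev e] with t ht
    refine HasDerivAt.fun_sum fun k _ => ?_
    have h1 := (ht.1 k).differentiableAt.hasDerivAt.scomp t (hline e t)
    have h2 : HasDerivAt (fun s : ℝ => g k (s • e)) (e * deriv (g k) (t • e)) t := by
      simpa [smul_eq_mul, Function.comp_def] using h1
    exact h2.norm_sq
  -- derivatives along a line
  have key : ∀ e : ℂ, fderiv ℝ (fderiv ℝ L) 0 e e =
      ((∑ k, 2 * (⟪g k 0, e * (e * deriv (deriv (g k)) 0)⟫_ℝ +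
          ⟪e * deriv (g k) 0, e * deriv (g k) 0⟫_ℝ)) * (∑ k, ‖g k 0‖ ^ 2) -
        (∑ k, 2 * ⟪g k 0, e * deriv (g k) 0⟫_ℝ) * (∑ k, 2 * ⟪g k 0, e * deriv (g k) 0⟫_ℝ)) /
        (∑ k, ‖g k 0‖ ^ 2) ^ 2 := by
    intro e
    have hG' : ∀ k, HasDerivAt (fun s : ℝ => e * deriv (g k) (s • e))
        (e * (e * deriv (deriv (g k)) 0)) 0 := by
      intro k
      have h0 : AnalyticAt ℂ (deriv (g k)) ((0 : ℝ) • e) := by
        rw [zero_smul]; exact (hg k).deriv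
      have h1 := h0.differentiableAt.hasDerivAt.scomp (0 : ℝ) (hline e 0)
      have h2 : HasDerivAt (fun s : ℝ => deriv (g k) (s • e)) (e * deriv (deriv (g k)) 0) 0 := by
        simpa [smul_eq_mul, Function.comp_def] using h1
      exact h2.const_mul e
    refine lap_line (ψ := fun t => (∑ k, 2 * ⟪g k (t • e), e * deriv (g k) (t • e)⟫_ℝ) /
        (∑ k, ‖g k (t • e)‖ ^ 2)) hL e ?_ ?_
    · filter_upwards [hN e, hev e] with t ht ht2
      exact ht.log ht2.2.ne'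
    · have h0 : ∀ k, HasDerivAt (fun s : ℝ => g k (s • e)) (e * deriv (g k) 0) 0 := by
        intro k
        have h1 := (hg k).differentiableAt.hasDerivAt
        have h2 : HasDerivAt (g k) (deriv (g k) 0) ((0 : ℝ) • e) := by
          rw [zero_smul]; exact h1
        have h3 := h2.scomp (0 : ℝ) (hline e 0)
        simpa [smul_eq_mul, Function.comp_def] using h3
      have h1 : HasDerivAt (fun t : ℝ => ∑ k, 2 * ⟪g k (t • e), e * deriv (g k) (t • e)⟫_ℝ)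
          (∑ k, 2 * (⟪g k 0, e * (e * deriv (deriv (g k)) 0)⟫_ℝ +
          ⟪e * deriv (g k) 0, e * deriv (g k) 0⟫_ℝ)) 0 := by
        refine HasDerivAt.fun_sum fun k _ => ?_
        refine HasDerivAt.const_mul 2 ?_
        have h2 := (h0 k).inner ℝ (hG' k)
        simpa using h2
      have h2 : HasDerivAt (fun s : ℝ => ∑ k, ‖g k (s • e)‖ ^ 2)
        (∑ k, 2 * ⟪g k 0, e * deriv (g k) 0⟫_ℝ) 0 := by
        have := (hN e).self_of_nhds
        simpa using this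
      have hne : ∑ k, ‖g k ((0 : ℝ) • e)‖ ^ 2 ≠ 0 := by
        simp only [zero_smul]
        exact hs.ne'
      have h3 := h1.div h2 hne
      simp only [zero_smul] at h3
      exact h3
  refine ⟨hL, ?_, ?_⟩
  · rw [lap_eq, key 1, key Complex.I, ← add_div]
    refine div_nonneg ?_ (by positivity)
    simp only [Fin.sum_univ_two, Complex.inner, Complex.sq_norm, Complex.normSq_apply]
    set a0 := g 0 0
    set a1 := g 1 0
    set b0 := deriv (g 0) 0 with hb0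
    set b1 := deriv (g 1) 0 with hb1
    set c0 := deriv (deriv (g 0)) 0
    set c1 := deriv (deriv (g 1)) 0
    simp only [one_mul, map_mul, Complex.conj_I, Complex.mul_re, Complex.mul_im, Complex.conj_re,
      Complex.conj_im, Complex.I_re, Complex.I_im, Complex.neg_re, Complex.neg_im]
    have hident : 0 ≤ 4 * ((a0.re * b1.re - a0.im * b1.im - a1.re * b0.re + a1.im * b0.im) ^ 2 +
          (a0.re * b1.im + a0.im * b1.re - a1.re * b0.im - a1.im * b0.re) ^ 2) := by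
      positivity
    refine le_of_le_of_eq hident ?_
    ring
  · intro e
    have h1 : HasDerivAt (fun s : ℝ => L (s • e)) (fderiv ℝ L 0 e) 0 := by
      have h2 : HasFDerivAt L (fderiv ℝ L 0) ((0 : ℝ) • e) := by
        rw [zero_smul]
        exact (hL.differentiableAt (by norm_num)).hasFDerivAt
      exact h2.comp_hasDerivAt (0 : ℝ) (hline e 0)
    have h2 : HasDerivAt (fun s : ℝ => L (s • e)) ((∑ k, 2 * ⟪g k 0, e * deriv (g k) 0⟫_ℝ) /
        (∑ k, ‖g k 0‖ ^ 2)) 0 := by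
      have h3 := (hN e).self_of_nhds
      have hne : ∑ k, ‖g k ((0 : ℝ) • e)‖ ^ 2 ≠ 0 := by
        simp only [zero_smul]
        exact hs.ne'
      have h4 := h3.log hne
      simpa only [zero_smul] using h4
    exact h1.unique h2

/-- the square of the norm of an affine function -/
lemma lap_sq (C : ℝ) (y w : ℂ) : ContDiffAt ℝ 2 (fun ζ : ℂ => C * ‖y + ζ * w‖ ^ 2) 0 ∧
    Laplacian.laplacian (fun ζ : ℂ => C * ‖y + ζ * w‖ ^ 2) 0 = 4 * C * ‖w‖ ^ 2 := by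
  have hL : ContDiffAt ℝ 2 (fun ζ : ℂ => C * ‖y + ζ * w‖ ^ 2) 0 := by
    refine contDiffAt_const.mul ?_
    refine ContDiffAt.norm_sq ℝ ?_
    exact contDiffAt_const.add (contDiffAt_id.mul contDiffAt_const)
  refine ⟨hL, ?_⟩
  have key : ∀ e : ℂ, fderiv ℝ (fderiv ℝ (fun ζ : ℂ => C * ‖y + ζ * w‖ ^ 2)) 0 e e = 2 * C * ‖e * w‖ ^ 2 := by
    intro e
    have h0 : ∀ t : ℝ, HasDerivAt (fun s : ℝ => y + (s • e) * w) (e * w) t := by
      intro t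
      have h1 : HasDerivAt (fun s : ℝ => s • e) e t := by
        simpa using (hasDerivAt_id t).smul_const e
      exact (h1.mul_const w).const_add y
    refine lap_line (ψ := fun t => C * (2 * ⟪y + (t • e) * w, e * w⟫_ℝ)) hL e ?_ ?_
    · exact Eventually.of_forall fun t => ((h0 t).norm_sq).const_mul C
    · have h1 : HasDerivAt (fun t : ℝ => ⟪y + (t • e) * w, e * w⟫_ℝ) (⟪e * w, e * w⟫_ℝ) 0 := by
        have h2 := (h0 0).inner ℝ (hasDerivAt_const (0 : ℝ) (e * w))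
        simpa using h2
      have h3 := (h1.const_mul 2).const_mul C
      rw [real_inner_self_eq_norm_sq] at h3
      have e1 : 2 * C * ‖e * w‖ ^ 2 = C * (2 * ‖e * w‖ ^ 2) := by ring
      rw [e1]
      exact h3
  rw [lap_eq, key 1, key Complex.I]
  rw [one_mul, norm_mul, Complex.norm_I, one_mul]
  ring

/-! ### The reduction modulo the lattice -/

lemma red_re (x : ℂ) : (red x).re = x.re - round x.re := by
  simp [red]

lemma red_im (x : ℂ) : (red x).im = x.im - round x.im := by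
  simp [red]

lemma red_ne {x : ℂ} (hx : x ∉ Lam) : red x ≠ 0 := by
  intro h
  apply hx
  refine ⟨round x.re, round x.im, ?_⟩
  unfold red at h
  linear_combination h

lemma round_shift {a d : ℝ} (h : |a - round a| + |d| < 1 / 2) : round (a + d) = round a := by
  rw [round_eq (a + d), Int.floor_eq_iff]
  have h1 := abs_lt.1 (lt_of_le_of_lt (abs_add_le (a - round a) d) h)
  constructor <;> linarith [h1.1, h1.2]

lemma red_add {x d : ℂ} (h : ‖red x‖ ≤ 1 / 4) (hd : ‖d‖ < 1 / 4) : red (x + d) = red x + d := by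
  have h1 : |x.re - round x.re| ≤ 1 / 4 := by
    rw [← red_re]
    exact (Complex.abs_re_le_norm _).trans h
  have h2 : |x.im - round x.im| ≤ 1 / 4 := by
    rw [← red_im]
    exact (Complex.abs_im_le_norm _).trans h
  have h3 : |d.re| < 1 / 4 := (Complex.abs_re_le_norm _).trans_lt hd
  have h4 : |d.im| < 1 / 4 := (Complex.abs_im_le_norm _).trans_lt hd
  apply Complex.ext
  · rw [red_re, Complex.add_re, round_shift (by linarith), Complex.add_re, red_re]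
    ring
  · rw [red_im, Complex.add_im, round_shift (by linarith), Complex.add_im, red_im]
    ring

lemma norm_red_le (x x' : ℂ) : ‖red x‖ ≤ ‖x - x'‖ + ‖red x'‖ := by
  have h1 : ‖red x‖ ≤ ‖x - (((round x'.re : ℤ) : ℂ) + ((round x'.im : ℤ) : ℂ) * Complex.I)‖ := by
    rw [← sq_le_sq₀ (norm_nonneg _) (norm_nonneg _), Complex.sq_norm, Complex.sq_norm, Complex.normSq_apply,
      Complex.normSq_apply, red_re, red_im]
    have e1 : (x - (((round x'.re : ℤ) : ℂ) + ((round x'.im : ℤ) : ℂ) * Complex.I)).re = x.re - round x'.re := by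
      simp
    have e2 : (x - (((round x'.re : ℤ) : ℂ) + ((round x'.im : ℤ) : ℂ) * Complex.I)).im = x.im - round x'.im := by
      simp
    rw [e1, e2]
    have h2 := round_le x.re (round x'.re)
    have h3 := round_le x.im (round x'.im)
    have h4 := sq_le_sq' (by linarith [abs_nonneg (x.re - round x.re), abs_nonneg (x.re - round x'.re)]) h2
    have h5 := sq_le_sq' (by linarith [abs_nonneg (x.im - round x.im), abs_nonneg (x.im - round x'.im)]) h3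
    rw [sq_abs, sq_abs] at h4 h5
    nlinarith
  have h2 : x - (((round x'.re : ℤ) : ℂ) + ((round x'.im : ℤ) : ℂ) * Complex.I) = (x - x') + red x' := by
    unfold red
    ring
  rw [h2] at h1
  exact h1.trans (norm_add_le _ _)

/-! ### The bump function -/

lemma bnd2 {f : ℂ → ℝ} (h : HasCompactSupport f) (hc : ContDiff ℝ ∞ f) :
    ∃ M1 M2 : ℝ, (∀ x, ‖fderiv ℝ f x‖ ≤ M1) ∧ ∀ x u, |fderiv ℝ (fderiv ℝ f) x u u| ≤ M2 * ‖u‖ ^ 2 := by
  have hd1 : ContDiff ℝ ∞ (fderiv ℝ f) := hc.fderiv_right (by simp)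
  have hd2 : ContDiff ℝ ∞ (fderiv ℝ (fderiv ℝ f)) := hd1.fderiv_right (by simp)
  have hs1 : HasCompactSupport (fderiv ℝ f) := h.fderiv (𝕜 := ℝ)
  have hs2 : HasCompactSupport (fderiv ℝ (fderiv ℝ f)) := hs1.fderiv (𝕜 := ℝ)
  obtain ⟨M1, h1⟩ := hs1.exists_bound_of_continuous hd1.continuous
  have hB : ∀ a b : ℂ, ∃ M : ℝ, ∀ x, |fderiv ℝ (fderiv ℝ f) x a b| ≤ M := by
    intro a b
    have hc1 : Continuous (fun x => fderiv ℝ (fderiv ℝ f) x a b) :=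
      (hd2.continuous.clm_apply continuous_const).clm_apply continuous_const
    have hs3 : HasCompactSupport (fun x => fderiv ℝ (fderiv ℝ f) x a b) :=
      hs2.comp_left (g := fun T : ℂ →L[ℝ] ℂ →L[ℝ] ℝ => T a b) (by simp)
    obtain ⟨M, hM⟩ := hs3.exists_bound_of_continuous hc1
    exact ⟨M, fun x => by rw [← Real.norm_eq_abs]; exact hM x⟩
  choose M hM using hB
  refine ⟨M1, M 1 1 + M 1 Complex.I + M Complex.I 1 + M Complex.I Complex.I, h1, fun x u => ?_⟩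
  have hu : u = u.re • (1 : ℂ) + u.im • Complex.I := by
    apply Complex.ext <;> simp
  have e : fderiv ℝ (fderiv ℝ f) x u u = u.re * u.re * fderiv ℝ (fderiv ℝ f) x 1 1 +
      u.re * u.im * fderiv ℝ (fderiv ℝ f) x 1 Complex.I + u.im * u.re * fderiv ℝ (fderiv ℝ f) x Complex.I 1 +
      u.im * u.im * fderiv ℝ (fderiv ℝ f) x Complex.I Complex.I := by
    conv_lhs => rw [hu]
    simp only [map_add, map_smul, add_apply, smul_apply, smul_eq_mul]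
    ring
  rw [e]
  have h2 := hM 1 1 x
  have h3 := hM 1 Complex.I x
  have h4 := hM Complex.I 1 x
  have h5 := hM Complex.I Complex.I x
  have hr : |u.re| ≤ ‖u‖ := Complex.abs_re_le_norm u
  have hi : |u.im| ≤ ‖u‖ := Complex.abs_im_le_norm u
  have hprod : ∀ a b c m : ℝ, |a| ≤ ‖u‖ → |b| ≤ ‖u‖ → |c| ≤ m → |a * b * c| ≤ m * ‖u‖ ^ 2 := by
    intro a b c m ha hb hc
    rw [abs_mul, abs_mul]
    have : 0 ≤ m := (abs_nonneg c).trans hc
    calc |a| * |b| * |c| ≤ ‖u‖ * ‖u‖ * m := by gcongr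
      _ = m * ‖u‖ ^ 2 := by ring
  have k1 := hprod _ _ _ _ hr hr h2
  have k2 := hprod _ _ _ _ hr hi h3
  have k3 := hprod _ _ _ _ hi hr h4
  have k4 := hprod _ _ _ _ hi hi h5
  refine (abs_add_le _ _).trans ?_
  refine (add_le_add (abs_add_le _ _) le_rfl).trans ?_
  refine (add_le_add (add_le_add (abs_add_le _ _) le_rfl) le_rfl).trans ?_
  linarith

lemma bump_bounds : ∃ M1 M2 : ℝ, 0 ≤ M1 ∧ 0 ≤ M2 ∧ (∀ x : ℂ, ‖fderiv ℝ (fun x : ℂ => (bump x : ℝ)) x‖ ≤ M1) ∧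
    ∀ x u : ℂ, |fderiv ℝ (fderiv ℝ (fun x : ℂ => (bump x : ℝ))) x u u| ≤ M2 * ‖u‖ ^ 2 := by
  obtain ⟨M1, M2, h1, h2⟩ := bnd2 (f := fun x : ℂ => (bump x : ℝ)) bump.hasCompactSupport bump.contDiff
  refine ⟨M1, M2, le_trans (norm_nonneg _) (h1 0), ?_, h1, h2⟩
  have := h2 0 1
  rw [norm_one, one_pow, mul_one] at this
  exact (abs_nonneg _).trans this
lemma bump_line {M1 M2 : ℝ} (h1 : ∀ x : ℂ, ‖fderiv ℝ (fun x : ℂ => (bump x : ℝ)) x‖ ≤ M1)
    (h2 : ∀ x u : ℂ, |fderiv ℝ (fderiv ℝ (fun x : ℂ => (bump x : ℝ))) x u u| ≤ M2 * ‖u‖ ^ 2) (r w e : ℂ) (he : ‖e‖ = 1) :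
    ContDiffAt ℝ 2 (fun ζ : ℂ => (bump (r + ζ * w) : ℝ)) 0 ∧
    |fderiv ℝ (fun ζ : ℂ => (bump (r + ζ * w) : ℝ)) 0 e| ≤ M1 * ‖w‖ ∧
    |fderiv ℝ (fderiv ℝ (fun ζ : ℂ => (bump (r + ζ * w) : ℝ))) 0 e e| ≤ M2 * ‖w‖ ^ 2 := by
  have hd : ContDiff ℝ ∞ (fun x : ℂ => (bump x : ℝ)) := bump.contDiff
  have hd1 : ContDiff ℝ ∞ (fderiv ℝ (fun x : ℂ => (bump x : ℝ))) := hd.fderiv_right (by simp)
  have ha : ContDiff ℝ ∞ (fun ζ : ℂ => r + ζ * w) := contDiff_const.add (contDiff_id.mul contDiff_const)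
  set A : ℂ →L[ℝ] ℂ := (ContinuousLinearMap.mul ℝ ℂ).flip w with hA
  have hAe : ∀ ζ : ℂ, A ζ = ζ * w := fun ζ => by simp [hA, mul_comm]
  have ha' : ∀ ζ : ℂ, HasFDerivAt (fun ζ : ℂ => r + ζ * w) A ζ := by
    intro ζ
    have := A.hasFDerivAt (x := ζ)
    have h3 := this.const_add r
    refine h3.congr_of_eventuallyEq (Eventually.of_forall fun ζ => ?_)
    simp [hAe]
  have hfd : fderiv ℝ (fun ζ : ℂ => (bump (r + ζ * w) : ℝ)) =
      fun ζ => (fderiv ℝ (fun x : ℂ => (bump x : ℝ)) (r + ζ * w)).comp A := by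
    funext ζ
    have h3 : HasFDerivAt (fun x : ℂ => (bump x : ℝ)) (fderiv ℝ (fun x : ℂ => (bump x : ℝ)) (r + ζ * w)) (r + ζ * w) :=
      (hd.differentiable (by simp) _).hasFDerivAt
    exact (h3.comp ζ (ha' ζ)).fderiv
  have hwe : ‖A e‖ = ‖w‖ := by rw [hAe, norm_mul, he, one_mul]
  refine ⟨?_, ?_, ?_⟩
  · have h3 : ContDiff ℝ 2 (fun ζ : ℂ => (bump (r + ζ * w) : ℝ)) := by
      exact_mod_cast contDiff_infty.1 (hd.comp ha) 2
    exact h3.contDiffAt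
  · rw [hfd]
    simp only [zero_mul, add_zero, ContinuousLinearMap.comp_apply]
    rw [← Real.norm_eq_abs]
    refine (ContinuousLinearMap.le_opNorm _ _).trans ?_
    rw [hwe]
    exact mul_le_mul_of_nonneg_right (h1 r) (norm_nonneg _)
  · rw [hfd]
    have h3 : HasFDerivAt (fderiv ℝ (fun x : ℂ => (bump x : ℝ)))
        (fderiv ℝ (fderiv ℝ (fun x : ℂ => (bump x : ℝ))) (r + 0 * w)) (r + 0 * w) :=
      (hd1.differentiable (by simp) _).hasFDerivAt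
    have h4 := h3.comp (0 : ℂ) (ha' 0)
    have h5 : HasFDerivAt (fun ζ : ℂ => (fderiv ℝ (fun x : ℂ => (bump x : ℝ)) (r + ζ * w)).comp A) _ 0 :=
      ((ContinuousLinearMap.compL ℝ ℂ ℂ ℝ).flip A).hasFDerivAt.comp (0 : ℂ) h4
    rw [h5.fderiv]
    simp only [ContinuousLinearMap.comp_apply, ContinuousLinearMap.flip_apply, ContinuousLinearMap.compL_apply,
      zero_mul, add_zero]
    have h6 := h2 r (A e)
    rw [hwe] at h6
    exact h6

/-! ### The local form of `near` -/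

/-- the two holomorphic functions -/
noncomputable def gg (k : ℝ) (r y a b : ℂ) : Fin 2 → ℂ → ℂ :=
  ![fun ζ => (y + ζ * b) / (r + ζ * a) - 1, fun ζ => (√k : ℂ) * (r + ζ * a)]

lemma gg_ana {k : ℝ} {r y a b : ℂ} (hr : r ≠ 0) (i : Fin 2) : AnalyticAt ℂ (gg k r y a b i) 0 := by
  have h1 : AnalyticAt ℂ (fun ζ : ℂ => r + ζ * a) 0 := analyticAt_const.add (analyticAt_id.mul analyticAt_const)
  have h2 : AnalyticAt ℂ (fun ζ : ℂ => y + ζ * b) 0 := analyticAt_const.add (analyticAt_id.mul analyticAt_const)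
  fin_cases i
  · exact (h2.div h1 (by simpa using hr)).sub analyticAt_const
  · exact analyticAt_const.mul h1

lemma gg_sum (k : ℝ) (hk : 0 ≤ k) (r y a b ζ : ℂ) : ∑ i, ‖gg k r y a b i ζ‖ ^ 2 =
    ‖(y + ζ * b) / (r + ζ * a) - 1‖ ^ 2 + k * ‖r + ζ * a‖ ^ 2 := by
  rw [Fin.sum_univ_two]
  simp only [gg, Matrix.cons_val_zero, Matrix.cons_val_one]
  rw [norm_mul, mul_pow, Complex.norm_real, Real.norm_eq_abs, sq_abs, Real.sq_sqrt hk]

lemma gg_deriv0 {k : ℝ} {r y a b : ℂ} (hr : r ≠ 0) :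
    deriv (gg k r y a b 0) 0 = (b * r - y * a) / r ^ 2 := by
  have h1 : HasDerivAt (fun ζ : ℂ => r + ζ * a) a 0 := by
    simpa using ((hasDerivAt_id (0 : ℂ)).mul_const a).const_add r
  have h2 : HasDerivAt (fun ζ : ℂ => y + ζ * b) b 0 := by
    simpa using ((hasDerivAt_id (0 : ℂ)).mul_const b).const_add y
  have h3 := (h2.div h1 (by simpa using hr)).sub_const 1
  have h4 : HasDerivAt (gg k r y a b 0) ((b * (r + 0 * a) - (y + 0 * b) * a) / (r + 0 * a) ^ 2) 0 := h3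
  rw [h4.deriv]
  simp

lemma gg_deriv1 {k : ℝ} {r y a b : ℂ} : deriv (gg k r y a b 1) 0 = (√k : ℂ) * a := by
  have h1 : HasDerivAt (fun ζ : ℂ => r + ζ * a) a 0 := by
    simpa using ((hasDerivAt_id (0 : ℂ)).mul_const a).const_add r
  have h4 : HasDerivAt (gg k r y a b 1) ((√k : ℂ) * a) 0 := h1.const_mul _
  exact h4.deriv

lemma gg_pos {k : ℝ} {r y a b : ℂ} (hk : 0 < k) (hr : r ≠ 0) : 0 < ∑ i, ‖gg k r y a b i 0‖ ^ 2 := by
  rw [gg_sum k hk.le]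
  have : 0 < ‖r‖ := norm_pos_iff.2 hr
  simp only [zero_mul, add_zero]
  positivity

lemma near_eq {k C : ℝ} (hk : 0 < k) (z v : E) (h : ‖red z.1‖ ≤ 1 / 4) :
    (fun ζ : ℂ => near k C (z + ζ • v)) =ᶠ[𝓝 0] fun ζ =>
      (bump (red z.1 + ζ * v.1) : ℝ) * Real.log (∑ i, ‖gg k (red z.1) z.2 v.1 v.2 i ζ‖ ^ 2) +
        C * ‖z.2 + ζ * v.2‖ ^ 2 := by
  have hc : Continuous (fun ζ : ℂ => ζ * v.1) := by fun_prop
  have hev : ∀ᶠ ζ in 𝓝 (0 : ℂ), ‖ζ * v.1‖ < 1 / 4 := by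
    have h1 : Tendsto (fun ζ : ℂ => ‖ζ * v.1‖) (𝓝 0) (𝓝 ‖(0 : ℂ) * v.1‖) := hc.norm.tendsto 0
    rw [zero_mul, norm_zero] at h1
    exact h1.eventually (gt_mem_nhds (by norm_num))
  filter_upwards [hev] with ζ hζ
  have e1 : (z + ζ • v).1 = z.1 + ζ * v.1 := rfl
  have e2 : (z + ζ • v).2 = z.2 + ζ * v.2 := rfl
  unfold near chi
  rw [e1, e2, red_add h hζ, gg_sum k hk.le]

lemma near_eq_far {k C : ℝ} (z v : E) (h : 1 / 4 < ‖red z.1‖) :
    (fun ζ : ℂ => near k C (z + ζ • v)) =ᶠ[𝓝 0] fun ζ => C * ‖z.2 + ζ * v.2‖ ^ 2 := by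
  have hc : Continuous (fun ζ : ℂ => ζ * v.1) := by fun_prop
  have hev : ∀ᶠ ζ in 𝓝 (0 : ℂ), ‖ζ * v.1‖ < ‖red z.1‖ - 1 / 4 := by
    have h1 : Tendsto (fun ζ : ℂ => ‖ζ * v.1‖) (𝓝 0) (𝓝 ‖(0 : ℂ) * v.1‖) := hc.norm.tendsto 0
    rw [zero_mul, norm_zero] at h1
    exact h1.eventually (gt_mem_nhds (by linarith))
  filter_upwards [hev] with ζ hζ
  have e1 : (z + ζ • v).1 = z.1 + ζ * v.1 := rfl
  have e2 : (z + ζ • v).2 = z.2 + ζ * v.2 := rfl
  unfold near chi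
  rw [e1, e2]
  have h1 := norm_red_le z.1 (z.1 + ζ * v.1)
  have h2 : ‖z.1 - (z.1 + ζ * v.1)‖ = ‖ζ * v.1‖ := by
    rw [sub_add_cancel_left, norm_neg]
  have h3 : bump (red (z.1 + ζ * v.1)) = 0 := by
    apply bump.zero_of_le_dist
    rw [dist_zero_right]
    change 1 / 4 ≤ _
    linarith
  rw [h3]
  simp

lemma bump_one {r w : ℂ} (h : ‖r‖ < 1 / 8) : (fun ζ : ℂ => (bump (r + ζ * w) : ℝ)) =ᶠ[𝓝 0] fun _ => 1 := by
  have hc : Continuous (fun ζ : ℂ => r + ζ * w) := by fun_prop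
  have hev : ∀ᶠ ζ in 𝓝 (0 : ℂ), ‖r + ζ * w‖ < 1 / 8 := by
    have h1 : Tendsto (fun ζ : ℂ => ‖r + ζ * w‖) (𝓝 0) (𝓝 ‖r + (0 : ℂ) * w‖) := hc.norm.tendsto 0
    rw [zero_mul, add_zero] at h1
    exact h1.eventually (gt_mem_nhds h)
  filter_upwards [hev] with ζ hζ
  apply bump.one_of_mem_closedBall
  rw [mem_closedBall_zero_iff]
  exact hζ.le

lemma inner_bound (a b e : ℂ) (he : ‖e‖ = 1) : |⟪a, e * b⟫_ℝ| ≤ ‖a‖ * ‖b‖ := by
  refine (abs_real_inner_le_norm _ _).trans ?_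
  rw [norm_mul, he, one_mul]

/-- numerical bounds in the transition region -/
lemma trans_bounds {k η : ℝ} (hk : 0 < k) (_ : k ≤ 1) (hη : η ≤ 1 / 100) {r y a b : ℂ} (hr1 : 1 / 8 ≤ ‖r‖)
    (hr2 : ‖r‖ ≤ 1 / 4) (hy : ‖y‖ < η) :
    |Real.log (∑ i, ‖gg k r y a b i 0‖ ^ 2)| ≤ 32 * η + k ∧
    ∀ e : ℂ, ‖e‖ = 1 → |fderiv ℝ (fun ζ : ℂ => Real.log (∑ i, ‖gg k r y a b i ζ‖ ^ 2)) 0 e| ≤
      64 * ‖b‖ + (512 * η + k) * ‖a‖ := by
  have hr0 : r ≠ 0 := by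
    intro h
    rw [h, norm_zero] at hr1
    norm_num at hr1
  have hrp : 0 < ‖r‖ := norm_pos_iff.2 hr0
  have hη0 : 0 < η := (norm_nonneg _).trans_lt hy
  have hq : ‖y / r‖ ≤ 8 * η := by
    rw [norm_div, div_le_iff₀ hrp]
    nlinarith
  have hs := gg_sum k hk.le r y a b 0
  simp only [zero_mul, add_zero] at hs
  have hn1 : ‖y / r - 1‖ ≤ 1 + 8 * η := by
    refine (norm_sub_le _ _).trans ?_
    rw [norm_one]
    linarith
  have hn2 : 1 - 8 * η ≤ ‖y / r - 1‖ := by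
    have h1 := norm_sub_norm_le (1 : ℂ) (y / r)
    rw [norm_one, norm_sub_rev] at h1
    linarith
  have hsle : ‖y / r - 1‖ ^ 2 + k * ‖r‖ ^ 2 ≤ 1 + 32 * η + k := by
    have h1 : ‖y / r - 1‖ ^ 2 ≤ (1 + 8 * η) ^ 2 := pow_le_pow_left₀ (norm_nonneg _) hn1 2
    have h2 : k * ‖r‖ ^ 2 ≤ k * 1 := by
      apply mul_le_mul_of_nonneg_left _ hk.le
      nlinarith
    nlinarith
  have hsge : 1 - 16 * η ≤ ‖y / r - 1‖ ^ 2 + k * ‖r‖ ^ 2 := by
    have h1 : (1 - 8 * η) ^ 2 ≤ ‖y / r - 1‖ ^ 2 := pow_le_pow_left₀ (by linarith) hn2 2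
    have h2 : 0 ≤ k * ‖r‖ ^ 2 := by positivity
    nlinarith [sq_nonneg η]
  have hshalf : 1 / 2 ≤ ‖y / r - 1‖ ^ 2 + k * ‖r‖ ^ 2 := by linarith
  refine ⟨?_, ?_⟩
  · rw [hs]
    set s := ‖y / r - 1‖ ^ 2 + k * ‖r‖ ^ 2 with hsdef
    have hs0 : 0 < s := by linarith
    have h1 := Real.log_le_sub_one_of_pos hs0
    have h2 := Real.one_sub_inv_le_log_of_pos hs0
    rw [abs_le]
    constructor
    · have h3 : -(32 * η) ≤ 1 - s⁻¹ := by
        have h4 : s⁻¹ ≤ 1 + 32 * η := by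
          rw [inv_le_comm₀ hs0 (by linarith)]
          rw [inv_le_iff_one_le_mul₀ (by linarith)]
          nlinarith
        linarith
      linarith
    · linarith
  · intro e he
    obtain ⟨-, -, h3⟩ := logsum (g := gg k r y a b) (fun i => gg_ana hr0 i) (gg_pos hk hr0)
    rw [h3 e, hs, Fin.sum_univ_two, gg_deriv0 hr0, gg_deriv1]
    have e0 : gg k r y a b 0 0 = y / r - 1 := by simp [gg]
    have e1 : gg k r y a b 1 0 = (√k : ℂ) * r := by simp [gg]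
    rw [e0, e1, abs_div, abs_of_pos (show 0 < ‖y / r - 1‖ ^ 2 + k * ‖r‖ ^ 2 by linarith),
      div_le_iff₀ (show 0 < ‖y / r - 1‖ ^ 2 + k * ‖r‖ ^ 2 by linarith)]
    have k1 := inner_bound (y / r - 1) ((b * r - y * a) / r ^ 2) e he
    have k2 := inner_bound ((√k : ℂ) * r) ((√k : ℂ) * a) e he
    have k3 : ‖(b * r - y * a) / r ^ 2‖ ≤ 8 * ‖b‖ + 64 * η * ‖a‖ := by
      rw [norm_div, norm_pow, div_le_iff₀ (by positivity)]
      have h4 : ‖b * r - y * a‖ ≤ ‖b‖ * ‖r‖ + η * ‖a‖ := by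
        refine (norm_sub_le _ _).trans ?_
        rw [norm_mul, norm_mul]
        have : ‖y‖ * ‖a‖ ≤ η * ‖a‖ := mul_le_mul_of_nonneg_right hy.le (norm_nonneg _)
        linarith
      refine h4.trans ?_
      have h5 : ‖b‖ * ‖r‖ ≤ 8 * ‖b‖ * ‖r‖ ^ 2 := by
        have : 0 ≤ ‖b‖ * ‖r‖ := by positivity
        nlinarith
      have h6 : η * ‖a‖ ≤ 64 * η * ‖a‖ * ‖r‖ ^ 2 := by
        have h7 : 0 ≤ η * ‖a‖ := by positivity
        have h8 : 1 ≤ 64 * ‖r‖ ^ 2 := by nlinarith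
        nlinarith
      nlinarith
    have k4 : ‖(√k : ℂ) * r‖ * ‖(√k : ℂ) * a‖ ≤ k * ‖a‖ / 4 := by
      rw [norm_mul, norm_mul, Complex.norm_real, Real.norm_eq_abs, abs_of_nonneg (Real.sqrt_nonneg k)]
      have h5 : √k * ‖r‖ * (√k * ‖a‖) = k * ‖a‖ * ‖r‖ := by
        calc √k * ‖r‖ * (√k * ‖a‖) = (√k * √k) * ‖a‖ * ‖r‖ := by ring
          _ = _ := by rw [Real.mul_self_sqrt hk.le]
      rw [h5]
      have : 0 ≤ k * ‖a‖ := by positivity
      nlinarith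
    have k5 : ‖y / r - 1‖ * ‖(b * r - y * a) / r ^ 2‖ ≤ 2 * (8 * ‖b‖ + 64 * η * ‖a‖) := by
      apply mul_le_mul (by linarith) k3 (norm_nonneg _) (by norm_num)
    have hnn : 0 ≤ 64 * ‖b‖ + (512 * η + k) * ‖a‖ := by positivity
    calc |2 * ⟪y / r - 1, e * ((b * r - y * a) / r ^ 2)⟫_ℝ + 2 * ⟪(√k : ℂ) * r, e * ((√k : ℂ) * a)⟫_ℝ|
        ≤ |2 * ⟪y / r - 1, e * ((b * r - y * a) / r ^ 2)⟫_ℝ| + |2 * ⟪(√k : ℂ) * r, e * ((√k : ℂ) * a)⟫_ℝ| :=
          abs_add_le _ _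
      _ ≤ 2 * (2 * (8 * ‖b‖ + 64 * η * ‖a‖)) + 2 * (k * ‖a‖ / 4) := by
          rw [abs_mul, abs_mul, abs_two]
          linarith
      _ ≤ (64 * ‖b‖ + (512 * η + k) * ‖a‖) * (1 / 2) := by
          have h1 := norm_nonneg a
          have h2 := norm_nonneg b
          have h3 : 0 ≤ k * ‖a‖ := by positivity
          have h4 : 0 ≤ η * ‖a‖ := by positivity
          nlinarith
      _ ≤ (64 * ‖b‖ + (512 * η + k) * ‖a‖) * (‖y / r - 1‖ ^ 2 + k * ‖r‖ ^ 2) :=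
          mul_le_mul_of_nonneg_left hshalf hnn

/-- the quadratic inequality -/
lemma quad_key {ε M1 M2 η A B : ℝ} (hε : 0 < ε) (hM1 : 0 ≤ M1) (hM2 : 0 ≤ M2) (hη : 0 ≤ η) (hA : 0 ≤ A) (hB : 0 ≤ B)
    (h : (2048 * M1 + 64 * M2 + 1) * η ≤ ε / 4) :
    -(ε * A ^ 2) ≤ -(4 * (M1 * A * (64 * B + (512 * η + η) * A))) - 2 * ((32 * η + η) * (M2 * A ^ 2)) +
        4 * (8192 * M1 ^ 2 / ε) * B ^ 2 := by
  have e1 : 4 * (M1 * A * (64 * B + (512 * η + η) * A)) = 256 * M1 * (A * B) + 2052 * M1 * η * A ^ 2 := by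
    ring
  have e2 : 2 * ((32 * η + η) * (M2 * A ^ 2)) = 66 * M2 * η * A ^ 2 := by ring
  have e3 : 256 * M1 * (A * B) ≤ ε / 2 * A ^ 2 + 4 * (8192 * M1 ^ 2 / ε) * B ^ 2 := by
    have h5 : 0 ≤ (ε * A - 256 * M1 * B) ^ 2 := sq_nonneg _
    have h6 : ε * (256 * M1 * (A * B)) ≤ ε * (ε / 2 * A ^ 2 + 4 * (8192 * M1 ^ 2 / ε) * B ^ 2) := by
      have e4 : ε * (4 * (8192 * M1 ^ 2 / ε) * B ^ 2) = 32768 * M1 ^ 2 * B ^ 2 := by
        field_simp
        ring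
      rw [mul_add, e4]
      nlinarith
    exact le_of_mul_le_mul_left h6 hε
  have e5 : (2052 * M1 + 66 * M2) * η ≤ ε / 2 := by
    have : (2052 * M1 + 66 * M2) * η ≤ (2 * (2048 * M1 + 64 * M2 + 1)) * η := by
      apply mul_le_mul_of_nonneg_right _ hη
      linarith
    linarith
  have e6 : (2052 * M1 + 66 * M2) * η * A ^ 2 ≤ ε / 2 * A ^ 2 :=
    mul_le_mul_of_nonneg_right e5 (by positivity)
  have e7 : (2052 * M1 + 66 * M2) * η * A ^ 2 = 2052 * M1 * η * A ^ 2 + 66 * M2 * η * A ^ 2 := by ring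
  rw [e7] at e6
  rw [e1, e2]
  linarith

lemma final_ineq {ε N a2 b2 C f0 g11 gII f1 g1 fI gI g0 f11 fII q1 qI S T : ℝ} (hN : a2 ≤ N) (hε : 0 ≤ ε)
    (hq : q1 + qI = 4 * C * b2) (m5 : 0 ≤ f0 * (g11 + gII)) (n1 : -T ≤ f1 * g1) (n2 : -T ≤ fI * gI)
    (n3 : -S ≤ g0 * f11) (n4 : -S ≤ g0 * fII) (hkey : -(ε * a2) ≤ -(4 * T) - 2 * S + 4 * C * b2) :
    -(ε * N) ≤ f0 * g11 + 2 * (f1 * g1) + g0 * f11 + q1 + (f0 * gII + 2 * (fI * gI) + g0 * fII + qI) := by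
  have h1 := mul_le_mul_of_nonneg_left hN hε
  have h2 : f0 * (g11 + gII) = f0 * g11 + f0 * gII := by ring
  rw [h2] at m5
  linarith

theorem near_holds : StNear := by
  intro ε hε
  obtain ⟨M1, M2, hM1, hM2, hb1, hb2⟩ := bump_bounds
  set P : ℝ := 2048 * M1 + 64 * M2 + 1 with hP
  have hP1 : 1 ≤ P := by rw [hP]; linarith
  have hP0 : 0 < P := by linarith
  set η : ℝ := min (1 / 100) (ε / (4 * P)) with hη
  have hη0 : 0 < η := lt_min (by norm_num) (by positivity)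
  have hη1 : η ≤ 1 / 100 := min_le_left _ _
  have hηε : P * η ≤ ε / 4 := by
    have h1 : η ≤ ε / (4 * P) := min_le_right _ _
    rw [le_div_iff₀ (by positivity)] at h1
    linarith
  set C : ℝ := 8192 * M1 ^ 2 / ε with hC
  have hC0 : 0 ≤ C := by positivity
  refine ⟨η, C, η, hη0, by linarith, hC0, hη0, ?_⟩
  intro z hz hy v
  have hr0 : red z.1 ≠ 0 := red_ne hz.1
  have hnm : 0 ≤ nm z v := by unfold nm; positivity
  have hnm1 : ‖v.1‖ ^ 2 ≤ nm z v := by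
    unfold nm
    have : 0 ≤ ‖v.2‖ ^ 2 / (1 + ‖z.2‖ ^ 2) ^ 2 := by positivity
    linarith
  unfold lev
  obtain ⟨hq1, hq2⟩ := lap_sq C z.2 v.2
  have hv2 : 0 ≤ 4 * C * ‖v.2‖ ^ 2 := by positivity
  by_cases hb : ‖red z.1‖ ≤ 1 / 4
  swap
  · push Not at hb
    have h1 := (InnerProductSpace.laplacian_congr_nhds (near_eq_far (k := η) (C := C) z v hb)).eq_of_nhds
    rw [h1]
    have h2 : Laplacian.laplacian (fun ζ : ℂ => C * ‖z.2 + ζ * v.2‖ ^ 2) 0 = 4 * C * ‖v.2‖ ^ 2 := hq2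
    rw [h2]
    nlinarith
  obtain ⟨hg1, hg2, -⟩ := logsum (g := gg η (red z.1) z.2 v.1 v.2) (fun i => gg_ana hr0 i) (gg_pos hη0 hr0)
  have h1 := (InnerProductSpace.laplacian_congr_nhds (near_eq (C := C) hη0 z v hb)).eq_of_nhds
  rw [h1]
  by_cases ha : ‖red z.1‖ < 1 / 8
  · have h2 : (fun ζ : ℂ => (bump (red z.1 + ζ * v.1) : ℝ) *
        Real.log (∑ i, ‖gg η (red z.1) z.2 v.1 v.2 i ζ‖ ^ 2) + C * ‖z.2 + ζ * v.2‖ ^ 2) =ᶠ[𝓝 0]
        fun ζ : ℂ => Real.log (∑ i, ‖gg η (red z.1) z.2 v.1 v.2 i ζ‖ ^ 2) + C * ‖z.2 + ζ * v.2‖ ^ 2 := by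
      filter_upwards [bump_one (w := v.1) ha] with ζ hζ
      rw [hζ, one_mul]
    have h3 := (InnerProductSpace.laplacian_congr_nhds h2).eq_of_nhds
    rw [h3, lap_eq, fd_add hg1 hq1, fd_add hg1 hq1]
    rw [lap_eq] at hg2 hq2
    nlinarith
  · push Not at ha
    obtain ⟨t1, t2⟩ := trans_bounds (a := v.1) (b := v.2) hη0 (by linarith) hη1 ha hb hy
    have hone : ‖(1 : ℂ)‖ = 1 := norm_one
    obtain ⟨f1, f2, f3⟩ := bump_line hb1 hb2 (red z.1) v.1 1 hone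
    obtain ⟨-, f4, f5⟩ := bump_line hb1 hb2 (red z.1) v.1 Complex.I Complex.norm_I
    have t3 := t2 1 hone
    have t4 := t2 Complex.I Complex.norm_I
    have hbn : 0 ≤ (bump (red z.1 + 0 * v.1) : ℝ) := bump.nonneg
    rw [lap_eq, fd_add (f1.mul hg1) hq1, fd_add (f1.mul hg1) hq1, fd_mul f1 hg1, fd_mul f1 hg1]
    rw [lap_eq] at hg2 hq2
    set f : ℂ → ℝ := fun ζ : ℂ => (bump (red z.1 + ζ * v.1) : ℝ) with hf
    set g : ℂ → ℝ := fun ζ : ℂ => Real.log (∑ i, ‖gg η (red z.1) z.2 v.1 v.2 i ζ‖ ^ 2) with hg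
    set q : ℂ → ℝ := fun ζ : ℂ => C * ‖z.2 + ζ * v.2‖ ^ 2 with hq
    have hf0 : 0 ≤ f 0 := hbn
    set D : ℝ := 64 * ‖v.2‖ + (512 * η + η) * ‖v.1‖ with hD
    have hD0 : 0 ≤ D := by positivity
    have m1 : |fderiv ℝ f 0 1 * fderiv ℝ g 0 1| ≤ M1 * ‖v.1‖ * D := by
      rw [abs_mul]
      exact mul_le_mul f2 t3 (abs_nonneg _) (by positivity)
    have m2 : |fderiv ℝ f 0 Complex.I * fderiv ℝ g 0 Complex.I| ≤ M1 * ‖v.1‖ * D := by
      rw [abs_mul]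
      exact mul_le_mul f4 t4 (abs_nonneg _) (by positivity)
    have hg0 : |g 0| ≤ 32 * η + η := t1
    have m3 : |g 0 * fderiv ℝ (fderiv ℝ f) 0 1 1| ≤ (32 * η + η) * (M2 * ‖v.1‖ ^ 2) := by
      rw [abs_mul]
      exact mul_le_mul hg0 f3 (abs_nonneg _) (by positivity)
    have m4 : |g 0 * fderiv ℝ (fderiv ℝ f) 0 Complex.I Complex.I| ≤ (32 * η + η) * (M2 * ‖v.1‖ ^ 2) := by
      rw [abs_mul]
      exact mul_le_mul hg0 f5 (abs_nonneg _) (by positivity)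
    have m5 : 0 ≤ f 0 * (fderiv ℝ (fderiv ℝ g) 0 1 1 + fderiv ℝ (fderiv ℝ g) 0 Complex.I Complex.I) :=
      mul_nonneg hf0 hg2
    have n1 := (abs_le.1 m1).1
    have n2 := (abs_le.1 m2).1
    have n3 := (abs_le.1 m3).1
    have n4 := (abs_le.1 m4).1
    have hkey := quad_key hε hM1 hM2 hη0.le (norm_nonneg v.1) (norm_nonneg v.2) hηε
    exact final_ineq hnm1 hε.le hq2 m5 n1 n2 n3 n4 hkey

end Pool.Agent.Y240.SP
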